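import Pool.Agent.TH680.EB.Null
import Pool.Agent.TH680.EB.Compl
import Pool.Agent.W900.BC.Neg4
import Pool.Agent.H622R2.Exp.A2
import Pool.Agent.H622R2.Exp.A5

/-!
# `NE` versus `ESPACE` relative to oracles tossed with biased coins: the exact threshold

The coins are biased, and the bias is chosen by an adversary: when the bits of the oracle are
revealed one after the other, in the order of the length of the strings, then, whatever the bits
revealed so far, the next bit has either value with conditional probability at most `1 / 2 + ε n`,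
where `n` is the length of the next string. Such a distribution `μ` is called `ε`-biased. We
determine exactly for which functions `ε` the classes `NE = NTIME(2 ^ O(n))` and
`ESPACE = DSPACE(2 ^ O(n))` differ relative to almost all oracles for all `ε`-biased distributions:
if and only if, for every `c`, there are infinitely many `n` such that `ε m ≤ 1 / n ^ c` for all `m`
from `n` to `n ^ c` (`Small ε`).

For these `ε`, even `NE` is not closed under complement relative to almost every oracle. For all
other `ε` there is an `ε`-biased distribution for which `E = ESPACE` relative to almost every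
oracle. So the threshold is the same for `E ≠ NE`, `NE ≠ coNE`, `NE ≠ ESPACE` and `E ≠ ESPACE`.

An instance of the search problem in `NE` consists of the binary notation of a number `n`, and the
witnesses are among the oracle bits of length about `n`, so that exponential time is polynomial time
in `n`: there are `2 ^ n` possible witnesses, each of them is one with probability
`1 / 2 ^ (n + 1)`, and short certificates cannot prove that there is no witness (second moments,
`EB/Fair`). An adversary of small bias is not better than one who chooses a random sparse set of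
bits after having seen all the others, and he cannot change anything by the switching lemma
(`EB/Step`). (`W900/BC`: the game with the adversary and the coding for the negative part.)
-/

set_option autoImplicit false

namespace Pool.Agent.Results.MP_d5876b_lc.BiasedOracles

open MeasureTheory Pool.Agent.NPC Pool.Agent.H620R2.Gauge Pool.Agent.W900.BC
open Pool.Agent.H622R2.Exp Pool.Agent.TH680

/-- **`NE` versus `ESPACE` relative to biased random oracles.** `InTime Lin A`, `InNTime Lin A` and
`InSpace Lin A` are the classes `E`, `NE` and `ESPACE` (linear exponents) relative to `A`. Let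
`ε n ≥ 0` for all `n`.

(1) If `Small ε` then for every probability distribution `μ` of oracles which is `ε`-biased and for
`μ`-almost every oracle `A`, some language in `NE^A` is not in `coNE^A`; its complement is in
`ESPACE^A` and not in `NE^A`.

(2) If not `Small ε` then there is an `ε`-biased probability distribution `μ` such that
`ESPACE^A ⊆ E^A` for `μ`-almost every oracle `A`, and also `PSPACE^A ⊆ P^A`.

(3)-(6) So, for each of the statements `NE^A ≠ ESPACE^A`, `NE^A ≠ coNE^A`, `E^A ≠ NE^A` and
`E^A ≠ ESPACE^A`, `Small ε` is necessary and sufficient for its truth for `μ`-almost every `A`, for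
all `ε`-biased `μ`. -/
theorem result (ε : ℕ → ℝ) (hε : ∀ n, 0 ≤ ε n) :
    (Small ε → ∀ μ : Measure Oracle, IsProbabilityMeasure μ → Biased ε μ →
      ∀ᵐ A ∂μ, ∃ L, InNTime Lin A L ∧ InSpace Lin A Lᶜ ∧ ¬ InNTime Lin A Lᶜ) ∧
    (¬ Small ε → ∃ μ : Measure Oracle, IsProbabilityMeasure μ ∧ Biased ε μ ∧
      ∀ᵐ A ∂μ, (∀ L, InSpace Lin A L → InTime Lin A L) ∧ ∀ L, IsPSPACE A L → IsP A L) ∧
    (Small ε ↔ ∀ μ : Measure Oracle, IsProbabilityMeasure μ → Biased ε μ →
      ∀ᵐ A ∂μ, ¬ ∀ L, InNTime Lin A L ↔ InSpace Lin A L) ∧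
    (Small ε ↔ ∀ μ : Measure Oracle, IsProbabilityMeasure μ → Biased ε μ →
      ∀ᵐ A ∂μ, ¬ ∀ L, InNTime Lin A L ↔ InNTime Lin A Lᶜ) ∧
    (Small ε ↔ ∀ μ : Measure Oracle, IsProbabilityMeasure μ → Biased ε μ →
      ∀ᵐ A ∂μ, ¬ ∀ L, InTime Lin A L ↔ InNTime Lin A L) ∧
    (Small ε ↔ ∀ μ : Measure Oracle, IsProbabilityMeasure μ → Biased ε μ →
      ∀ᵐ A ∂μ, ¬ ∀ L, InTime Lin A L ↔ InSpace Lin A L) := by
  have hpos : Small ε → ∀ μ : Measure Oracle, IsProbabilityMeasure μ → Biased ε μ →
      ∀ᵐ A ∂μ, ∃ L, InNTime Lin A L ∧ InSpace Lin A Lᶜ ∧ ¬ InNTime Lin A Lᶜ := by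
    intro hs μ _ hb
    filter_upwards [EB.pos_part hs μ hb] with A hA
    have h1 := EL.sat_ne false A
    exact ⟨EL.sat false A, h1, EB.space_compl (h1.isSpace good_Lin), hA⟩
  have hneg : ¬ Small ε → ∃ μ : Measure Oracle, IsProbabilityMeasure μ ∧ Biased ε μ ∧
      ∀ᵐ A ∂μ, (∀ L, InSpace Lin A L → InTime Lin A L) ∧ ∀ L, IsPSPACE A L → IsP A L := by
    intro hs
    obtain ⟨μ, h1, h2, h3⟩ := neg_part hε hs
    refine ⟨μ, h1, h2, ?_⟩
    filter_upwards [h3] with A hA
    exact ⟨fun L hL => EB.space_le_time good_Lin hA L hL, hA⟩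
  have key : ∀ Φ : Oracle → Prop,
      (∀ A, (∃ L, InNTime Lin A L ∧ InSpace Lin A Lᶜ ∧ ¬ InNTime Lin A Lᶜ) → Φ A) →
      (∀ A, (∀ L, InSpace Lin A L → InTime Lin A L) → ¬ Φ A) →
      (Small ε ↔ ∀ μ : Measure Oracle, IsProbabilityMeasure μ → Biased ε μ → ∀ᵐ A ∂μ, Φ A) := by
    intro Φ h1 h2
    constructor
    · intro hs μ hμ hb
      filter_upwards [hpos hs μ hμ hb] with A hA using h1 A hA
    · intro h
      by_contra hs
      obtain ⟨μ, hμ, hb, h3⟩ := hneg hs
      have h4 : ∀ᵐ _ ∂μ, False := by
        filter_upwards [h3, h μ hμ hb] with A h5 h6 using h2 A h5.1 h6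
      rw [ae_iff] at h4
      simp at h4
  refine ⟨hpos, hneg, key _ ?_ ?_, key _ ?_ ?_, key _ ?_ ?_, key _ ?_ ?_⟩
  · rintro A ⟨L, _, h2, h3⟩ h
    exact h3 ((h _).2 h2)
  · intro A hA h
    exact h fun L => ⟨fun h1 => h1.isSpace good_Lin, fun h1 => (hA L h1).isNTime⟩
  · rintro A ⟨L, h1, _, h3⟩ h
    exact h3 ((h L).1 h1)
  · intro A hA h
    refine h fun L => ⟨fun h1 => ?_, fun h1 => ?_⟩
    · exact (EB.time_compl (hA L (h1.isSpace good_Lin))).isNTime
    · have h2 := (EB.time_compl (hA _ (h1.isSpace good_Lin))).isNTime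
      rwa [compl_compl] at h2
  · rintro A ⟨L, h1, _, h3⟩ h
    exact h3 (EB.time_compl ((h L).2 h1)).isNTime
  · intro A hA h
    exact h fun L => ⟨fun h1 => h1.isNTime, fun h1 => hA L (h1.isSpace good_Lin)⟩
  · rintro A ⟨L, _, h2, h3⟩ h
    exact h3 ((h _).2 h2).isNTime
  · intro A hA h
    exact h fun L => ⟨fun h1 => h1.isNTime.isSpace good_Lin, hA L⟩

end Pool.Agent.Results.MP_d5876b_lc.BiasedOracles
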