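import Pool.Agent.TH771.CX.NESpace2
import Pool.Agent.TH771.CX.ExpClose
import Pool.Agent.H529R3.Gap.Main

/-!
# How many strings of a random oracle must be changed to make `NE` and `ESPACE` equal?

Let `g` be a function. If for every `ε > 0` there are infinitely many `n` with `g n ≤ n ^ ε`, then
for almost every oracle `O`, every oracle `A` which is obtained from `O` by at most `g` changes has
`NE^A ≠ ESPACE^A`. Otherwise every oracle `O` whatsoever can be changed at `g` strings so that
`E = NE = ESPACE`. If moreover `g n ≤ 2 ^ (n ^ ε)` infinitely often for every `ε > 0`, then for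
almost every `O`, whatever the changes are, `PSPACE` is not in `PH` with polynomial advice.

The adversary, who knows the oracle, has far more possible changes than the test language has
values; so a union bound over the changes does not work. For deterministic machines one changes only
bits which are queried. A nondeterministic machine may guess which strings were changed. The proof
(files `Pool/Agent/TH771/CX`) takes a minimal set of changes that makes the machine right. Each
changed bit is then in a certificate of the changed oracle, or is critical: changing it back would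
make the machine accept wrongly. By the satisfiability coding lemma of Paturi, Pudlák and Zane, the
oracles with many critical bits are rare, so the changes can be found from the changed oracle with
little information.
-/

set_option autoImplicit false

namespace Pool.Agent.Results.MP_d5876b_lc.ChangedStrings

open Filter MeasureTheory Pool.Agent.NPC
open Pool.Agent.H628R3.RO (randomOracle)
open Pool.Agent.H620R2.Gauge Pool.Agent.H622R2.Exp Pool.Agent.W900.CH Pool.Agent.TH771.CX

theorem result (g : ℕ → ℝ) :
    ((∀ ε : ℝ, 0 < ε → ∃ᶠ n : ℕ in atTop, g n ≤ (n : ℝ) ^ ε) →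
      ∀ᵐ O ∂randomOracle, ∀ A, Close g O A → ∃ L, InSpace Lin A L ∧ ¬ InNTime Lin A L) ∧
    ((¬ ∀ ε : ℝ, 0 < ε → ∃ᶠ n : ℕ in atTop, g n ≤ (n : ℝ) ^ ε) →
      (∀ O : Oracle, ∃ A, Close g O A ∧ ∀ L, InSpace Lin A L → InTime Lin A L) ∧
      ((∀ ε : ℝ, 0 < ε → ∃ᶠ n : ℕ in atTop, g n ≤ 2 ^ (n : ℝ) ^ ε) →
        ∀ᵐ O ∂randomOracle, ∀ A, Close g O A → ∃ L, IsPSPACE A L ∧ ¬ IsPHpoly A L)) := by
  refine ⟨fun hg => ?_, fun hg => ⟨fun O => ?_, fun hg2 => ?_⟩⟩
  · filter_upwards [ae_far_NES hg] with O hO A hA
    exact ⟨par2 A, par2_space good_Lin A, hO A hA⟩
  · push Not at hg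
    obtain ⟨ε, hε, h⟩ := hg
    exact exists_close_E hε h O
  · have h1 := ae_far_P (S := {A : Oracle | ∀ L, IsPSPACE A L → IsPHpoly A L})
      (fun f hf => null_of_frequently f hf _ fun A hA => hA _ (parLang_pspace A)) hg2
    filter_upwards [h1] with O hO A hA
    by_contra h3
    push Not at h3
    exact hO A hA h3

end Pool.Agent.Results.MP_d5876b_lc.ChangedStrings
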