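import Pool.Agent.TH678.EX.Gap

/-!
# `NE = ESPACE` relative to an oracle, with and without `NP = PSPACE`

If `NP = PSPACE`, then, by padding, `NE = ESPACE`, and this holds relative to every oracle. For
every gauge `f`, the set of the oracles relative to which `NE = ESPACE`, and the set of the oracles
relative to which `NE = ESPACE` but `NP ≠ PSPACE` (even `PSPACE` is not contained in `PH/poly`), are
null sets for `f` if and only if for every `ε > 0` there are infinitely many `N` with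
`f N ≤ (log N) ^ ε`.

`InNTime Lin A` is the class `NE` relative to `A`, `InSpace Lin A` is `ESPACE`.
-/

set_option autoImplicit false

namespace Pool.Agent.Results.MP_d5876b_lc.GaugeThreshold

open Pool.Agent.NPC Pool.Agent.H620R2.Gauge Pool.Agent.H622R2.Exp

theorem result (f : ℕ → ℝ) :
    (Null f {A : Oracle | ∀ L, InNTime Lin A L ↔ InSpace Lin A L} ↔
      ∀ ε : ℝ, 0 < ε → ∃ᶠ N : ℕ in Filter.atTop, f N ≤ (Real.logb 2 N) ^ ε) ∧
    (Null f {A : Oracle | (∀ L, InNTime Lin A L ↔ InSpace Lin A L) ∧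
        ¬ ∀ L, IsNP A L ↔ IsPSPACE A L} ↔
      ∀ ε : ℝ, 0 < ε → ∃ᶠ N : ℕ in Filter.atTop, f N ≤ (Real.logb 2 N) ^ ε) ∧
    (Null f {A : Oracle | (∀ L, InNTime Lin A L ↔ InSpace Lin A L) ∧
        ∃ L, IsPSPACE A L ∧ ¬ IsPHpoly A L} ↔
      ∀ ε : ℝ, 0 < ε → ∃ᶠ N : ℕ in Filter.atTop, f N ≤ (Real.logb 2 N) ^ ε) := by
  have key := (Pool.Agent.TH678.EX.mainS f).1
  have h3 : ∀ A : Oracle, (∀ L, InSpace Lin A L → InTime Lin A L) →
      ∀ L, InNTime Lin A L ↔ InSpace Lin A L :=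
    fun A hA L => ⟨fun h => h.isSpace good_Lin, fun h => (hA L h).isNTime⟩
  refine ⟨key _ (fun A hA _ => h3 A hA) fun A hA L hL => ((hA L).2 hL).isAlt,
    key _ (fun A hA h => ⟨h3 A hA, fun h' => ?_⟩) fun A hA L hL => ((hA.1 L).2 hL).isAlt,
    key _ (fun A hA h => ⟨h3 A hA, h⟩) fun A hA L hL => ((hA.1 L).2 hL).isAlt⟩
  obtain ⟨L, h4, h5⟩ := h
  exact h5 (((h' L).2 h4).isPH.isPHpoly)

end Pool.Agent.Results.MP_d5876b_lc.GaugeThreshold
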