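import Pool.Agent.TH93.MM.LawN

/-!
# `NE` versus `ESPACE` relative to a random oracle: how many bits of memory can be simulated

`InMem (fun n => 2 ^ n) g A L` says that `L` is decided, relative to the oracle `A`, with `g (n)` bits
of memory: the algorithm works in steps, every step is computed in time `2 ^ O(n)` relative to `A`,
and between the steps it keeps `g (n)` bits only; the number of steps is not bounded. (For
`g (n) = O(n)` this is the class `E`, and for `g (n) = 2 ^ O(n)` it is `ESPACE`, relative to `A`.)
`InTimeX h A L` says that `L` is decided in `2 ^ h(n) * 2 ^ O(n)` rounds, and `InNTimeX h A L` that `L`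
is accepted nondeterministically (with certificates of any length) in `2 ^ h(n) * 2 ^ O(n)` rounds,
with `2 ^ n / 2` bits of advice. `NiceT (fun n => 2 ^ n) g` says that `g (n)` is computed (in unary)
in time `2 ^ O(n)`.

Theorem. Relative to almost every oracle `A`, for all `g` with this property and for all functions
`h`, the following are equivalent:

1. all languages with `g (n)` bits of memory are decided in time `2 ^ h(n) * 2 ^ O(n)`;
2. all these languages are accepted in nondeterministic time `2 ^ h(n) * 2 ^ O(n)` with
   `2 ^ n / 2` bits of advice;
3. `g (n) ≤ h (n) + O(n)`.

For `h = 0`: relative to almost every oracle `NE`, even with `2 ^ n / 2` bits of advice, contains the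
languages with `g (n)` bits of memory if and only if `g (n) = O(n)`. In general, nondeterminism and
advice do not save anything, up to the factor `2 ^ O(n)`, when `g (n)` bits of memory are simulated:
running through all contents of the memory is optimal.

Proof. The test language: `x` is accepted if the number of the strings `x w` in the oracle, with
`|w| = g (|x|) - 2`, is odd. By Håstad's switching lemma (with width `2 ^ h(n) * 2 ^ O(n)`, but
depth `2 ^ (n + 1)` only), a nondeterministic algorithm becomes a shallow decision tree for all
inputs of length `n` and all advice, while every block `x w` keeps more than `2 * 4 ^ n` random bits.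
-/

set_option autoImplicit false

namespace Pool.Agent.Results.MP_d5876b_lc.MemoryLaw

open Pool.Agent.TH93.MM Pool.Agent.TH93.GL Pool.Agent.H620R2.Gauge MeasureTheory

/-- **Bits of memory against nondeterministic time, relative to a random oracle.** -/
theorem result : ∀ᵐ A ∂ranO, ∀ g h : ℕ → ℕ, NiceT (fun n => 2 ^ n) g → List.TFAE [
      ∀ L, InMem (fun n => 2 ^ n) g A L → InTimeX h A L,
      ∀ L, InMem (fun n => 2 ^ n) g A L → InNTimeX h A L,
      ∃ c, ∀ n, g n ≤ h n + c * (n + 1)] :=
  law_nt

end Pool.Agent.Results.MP_d5876b_lc.MemoryLaw
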